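import Mathlib

namespace Pool.Agent.H.MP_a8364e_al

abbrev K := ZMod 3

variable {V : Type} [AddCommGroup V] [Module K V]

@[ext] structure Aff (Γ : Subgroup (V ≃ₗ[K] V)) : Type where
  v : V
  g : Γ

variable {Γ : Subgroup (V ≃ₗ[K] V)}

instance : Mul (Aff Γ) := ⟨fun a b => ⟨a.v + a.g.1 b.v, a.g * b.g⟩⟩
instance : One (Aff Γ) := ⟨⟨0, 1⟩⟩
instance : Inv (Aff Γ) := ⟨fun a => ⟨-(a.g⁻¹.1 a.v), a.g⁻¹⟩⟩

@[simp] theorem mul_v (a b : Aff Γ) : (a * b).v = a.v + a.g.1 b.v := rfl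
@[simp] theorem mul_g (a b : Aff Γ) : (a * b).g = a.g * b.g := rfl
@[simp] theorem one_v : (1 : Aff Γ).v = 0 := rfl
@[simp] theorem one_g : (1 : Aff Γ).g = 1 := rfl
@[simp] theorem inv_v (a : Aff Γ) : a⁻¹.v = -(a.g⁻¹.1 a.v) := rfl
@[simp] theorem inv_g (a : Aff Γ) : a⁻¹.g = a.g⁻¹ := rfl

instance : Group (Aff Γ) := Group.ofLeftAxioms
  (fun a b c => by ext : 1 <;> simp [add_assoc, mul_assoc])
  (fun a => by ext : 1 <;> simp)
  (fun a => by ext : 1 <;> simp)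

theorem three (x : V) : x + x + x = 0 := by
  have : (1 + 1 + 1 : K) = 0 := by decide
  have h := congrArg (fun c : K => c • x) this
  simpa only [add_smul, one_smul, zero_smul] using h

theorem eq_zero_of_two {x : V} (h : x + x = 0) : x = 0 := by
  have := three x
  rwa [h, zero_add] at this

/-- translations -/
def tl (Γ : Subgroup (V ≃ₗ[K] V)) (w : V) : Aff Γ := ⟨w, 1⟩

theorem tl_add (a b : V) : tl Γ (a + b) = tl Γ a * tl Γ b := by ext : 1 <;> simp [tl]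

theorem conj_tl (a : Aff Γ) (w : V) : a * tl Γ w * a⁻¹ = tl Γ (a.g.1 w) := by
  ext : 1
  · simp [tl]
  · simp [tl]

theorem center_bot (hz : LinearEquiv.neg K ∈ Γ) : Subgroup.center (Aff Γ) = ⊥ := by
  rw [eq_bot_iff]
  intro a ha
  rw [Subgroup.mem_center_iff] at ha
  have h1 := congrArg Aff.v (ha ⟨0, ⟨_, hz⟩⟩)
  simp only [mul_v, zero_add, LinearEquiv.neg_apply, map_zero, add_zero] at h1
  have h2 : a.v = 0 := eq_zero_of_two (by nth_rewrite 1 [← h1]; simp)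
  rw [Subgroup.mem_bot]
  ext : 1
  · exact h2
  · apply Subtype.ext
    ext w
    have h3 := congrArg Aff.v (ha (tl Γ w))
    simpa [tl, h2] using h3.symm

theorem loc_fin [Finite Γ] (s : Finset (Aff Γ)) :
    ((Subgroup.closure (s : Set (Aff Γ)) : Subgroup (Aff Γ)) : Set (Aff Γ)).Finite := by
  let T : Set V := (fun p : Γ × s => p.1.1 p.2.1.v) '' Set.univ
  have hT : T.Finite := Set.finite_univ.image _
  let W := Submodule.span K T
  have hW : ∀ γ : Γ, ∀ w ∈ W, γ.1 w ∈ W := by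
    intro γ w hw
    induction hw using Submodule.span_induction with
    | mem x hx =>
      obtain ⟨p, -, rfl⟩ := hx
      exact Submodule.subset_span ⟨(γ * p.1, p.2), trivial, rfl⟩
    | zero => simp
    | add x y _ _ hx hy => rw [map_add]; exact W.add_mem hx hy
    | smul c x _ hx => rw [map_smul]; exact W.smul_mem c hx
  have : Module.Finite K W := Module.Finite.span_of_finite K hT
  have : Finite W := Module.finite_of_finite K
  let H : Subgroup (Aff Γ) :=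
    { carrier := {a | a.v ∈ W}
      one_mem' := W.zero_mem
      mul_mem' := fun ha hb => W.add_mem ha (hW _ _ hb)
      inv_mem' := fun ha => W.neg_mem (hW _ _ ha) }
  have hs : Subgroup.closure (s : Set (Aff Γ)) ≤ H := by
    rw [Subgroup.closure_le]
    intro a ha
    exact Submodule.subset_span ⟨(1, ⟨a, ha⟩), trivial, rfl⟩
  refine (Set.finite_range (fun p : W × Γ => (⟨p.1.1, p.2⟩ : Aff Γ))).subset fun a ha => ?_
  exact ⟨(⟨a.v, hs ha⟩, a.g), rfl⟩

theorem map_tl [Finite Γ]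
    (h1 : ∀ γ ∈ Γ, γ ^ 3 = 1 → (Set.range fun w => γ w - w).Finite → γ = 1)
    (φ : MulAut (Aff Γ)) (w : V) : (φ (tl Γ w)).g = 1 := by
  apply Subtype.ext
  apply h1 _ (φ (tl Γ w)).g.2
  · have e : tl Γ w * tl Γ w * tl Γ w = 1 := by
      rw [← tl_add, ← tl_add, three]; rfl
    have := congrArg (fun a => (φ a).g.1) e
    simpa [pow_succ] using this
  · have hf := Set.finite_range
      (fun γ : Γ => (φ (tl Γ w)).v - (φ (tl Γ (γ.1 w))).v)
    refine hf.subset ?_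
    rintro _ ⟨u, rfl⟩
    refine ⟨(φ.symm (tl Γ u)).g, ?_⟩
    simp only
    rw [← conj_tl, map_mul, map_mul, map_inv, MulEquiv.apply_symm_apply]
    simp [tl]
    abel

theorem complete [Finite Γ] (hz : LinearEquiv.neg K ∈ Γ)
    (h1 : ∀ γ ∈ Γ, γ ^ 3 = 1 → (Set.range fun w => γ w - w).Finite → γ = 1)
    (h2 : ∀ N : V ≃ₗ[K] V, (∀ γ ∈ Γ, N * γ * N⁻¹ ∈ Γ) → (∀ γ ∈ Γ, N⁻¹ * γ * N ∈ Γ) → N ∈ Γ)
    (φ : MulAut (Aff Γ)) : ∃ g, φ = MulAut.conj g := by
  have ht : ∀ (ψ : MulAut (Aff Γ)) (w : V), ψ (tl Γ w) = tl Γ (ψ (tl Γ w)).v := by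
    intro ψ w
    ext : 1
    · rfl
    · exact map_tl h1 ψ w
  let N0 : V ≃+ V :=
    { toFun := fun w => (φ (tl Γ w)).v
      invFun := fun w => (φ.symm (tl Γ w)).v
      left_inv := fun w => by
        simp only
        rw [← ht φ, MulEquiv.symm_apply_apply]; rfl
      right_inv := fun w => by
        simp only
        rw [← ht φ.symm, MulEquiv.apply_symm_apply]; rfl
      map_add' := fun a b => by
        rw [tl_add, map_mul, mul_v, map_tl h1 φ a]; rfl }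
  let N : V ≃ₗ[K] V := N0.toLinearEquiv (ZMod.map_smul N0)
  have hN : ∀ w, φ (tl Γ w) = tl Γ (N w) := fun w => ht φ w
  have hN' : ∀ w, φ.symm (tl Γ w) = tl Γ (N⁻¹ w) := fun w => ht φ.symm w
  have hθ : ∀ a : Aff Γ, (φ a).g.1 = N * a.g.1 * N⁻¹ := by
    intro a
    ext w
    have := congrArg φ (conj_tl a (N⁻¹ w))
    rw [map_mul, map_mul, map_inv, hN, hN, conj_tl] at this
    have h3 := congrArg Aff.v this
    simpa [tl] using h3
  have hθ' : ∀ a : Aff Γ, (φ.symm a).g.1 = N⁻¹ * a.g.1 * N := by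
    intro a
    have := hθ (φ.symm a)
    rw [MulEquiv.apply_symm_apply] at this
    rw [this]; group
  have hNΓ : N ∈ Γ := h2 N
    (fun γ hγ => by have := (φ ⟨0, ⟨γ, hγ⟩⟩).g.2; rwa [hθ] at this)
    (fun γ hγ => by have := (φ.symm ⟨0, ⟨γ, hγ⟩⟩).g.2; rwa [hθ'] at this)
  let z : Aff Γ := ⟨0, ⟨_, hz⟩⟩
  have hzg : ∀ w, (φ z).g.1 w = -w := by
    intro w
    rw [hθ]
    simp [z]
  refine ⟨⟨-(φ z).v, ⟨N, hNΓ⟩⟩, ?_⟩
  ext a : 1
  have hc : (⟨0, a.g⟩ : Aff Γ) * z = z * ⟨0, a.g⟩ := by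
    ext : 1
    · simp [z]
    · apply Subtype.ext
      ext w
      simp [z]
  have h3 := congrArg (fun b => (φ b).v) hc
  simp only [map_mul, mul_v, hzg] at h3
  rw [hθ] at h3
  have ha : a = tl Γ a.v * ⟨0, a.g⟩ := by ext : 1 <;> simp [tl]
  have h4 : (φ a).v = N a.v + (φ ⟨0, a.g⟩).v := by
    conv_lhs => rw [ha]
    rw [map_mul, hN]
    simp [tl]
  ext : 1
  · rw [h4, MulAut.conj_apply]
    simp only [mul_v, mul_g, inv_v, neg_neg, Subgroup.coe_mul, Subgroup.coe_inv, map_neg,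
      LinearEquiv.mul_apply] at h3 ⊢
    have h5 := three (φ ⟨0, a.g⟩).v
    set c := (φ ⟨0, a.g⟩).v
    set x := N (a.g.1 (N⁻¹ (φ z).v))
    have : c = x - (φ z).v := by
      have h6 : c + c = (φ z).v - x := by
        rw [eq_sub_iff_add_eq, add_assoc, h3]; abel
      rw [h6] at h5
      rw [← sub_eq_zero, ← h5]; abel
    rw [this]; abel
  · apply Subtype.ext
    rw [hθ]; rfl

end Pool.Agent.H.MP_a8364e_al
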