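import Pool.Agent.H.MP_a8364e_al.A

namespace Pool.Agent.H.MP_a8364e_al

abbrev M := ℕ →₀ K
abbrev P3 := K × K × K

def I (i : ℕ) : Prop := ∃ k, i = 2 ^ k

theorem I0 : ¬ I 0 := fun ⟨k, h⟩ => absurd h (by positivity)
theorem I1 : I 1 := ⟨0, rfl⟩
theorem I2 : I 2 := ⟨1, rfl⟩
theorem Igap (k : ℕ) (hk : 1 ≤ k) : ¬ I (2 ^ k + k) := by
  rintro ⟨j, h⟩
  have h1 : k < 2 ^ k := Nat.lt_two_pow_self
  have h2 : 2 ^ k < 2 ^ j := by omega
  have h3 : 2 ^ j < 2 ^ (k + 1) := by rw [pow_succ]; omega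
  have := (Nat.pow_lt_pow_iff_right (by norm_num)).1 h2
  have := (Nat.pow_lt_pow_iff_right (by norm_num)).1 h3
  omega
theorem I3 : ¬ I 3 := Igap 1 le_rfl

open Classical in
noncomputable def dg (p : P3) (i : ℕ) : K := if I i then p.2.2 else p.1

theorem dg_I (p : P3) {i : ℕ} (h : I i) : dg p i = p.2.2 := if_pos h
theorem dg_nI (p : P3) {i : ℕ} (h : ¬ I i) : dg p i = p.1 := if_neg h

theorem op_fin (p : P3) (f : M) :
    (Function.support fun i => dg p i * f i + p.2.1 * f (i + 1)).Finite := by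
  refine (f.hasFiniteSupport.union
    (f.hasFiniteSupport.preimage (f := Nat.succ) Nat.succ_injective.injOn)).subset ?_
  intro i hi
  by_contra hc
  simp only [Set.mem_union, Function.mem_support, Set.mem_preimage, not_or, not_not] at hc
  exact hi (by simp [hc.1, hc.2])

noncomputable def op (p : P3) : M →ₗ[K] M where
  toFun f := Finsupp.ofSupportFinite _ (op_fin p f)
  map_add' f g := by
    ext i
    simp only [Finsupp.ofSupportFinite_coe, Finsupp.add_apply]
    ring
  map_smul' c f := by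
    ext i
    simp only [Finsupp.ofSupportFinite_coe, Finsupp.smul_apply, smul_eq_mul, RingHom.id_apply]
    ring

theorem op_apply (p : P3) (f : M) (i : ℕ) : op p f i = dg p i * f i + p.2.1 * f (i + 1) := rfl

theorem op_add (p q : P3) (f : M) : op (p + q) f = op p f + op q f := by
  ext i
  simp only [op_apply, Finsupp.add_apply, dg]
  split_ifs <;> simp <;> ring

theorem op_smul (c : K) (p : P3) (f : M) : op (c • p) f = c • op p f := by
  ext i
  simp only [op_apply, Finsupp.smul_apply, dg]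
  split_ifs <;> simp <;> ring

theorem op_zero (f : M) : op 0 f = 0 := by simpa using op_smul 0 0 f

theorem op_id (f : M) : op (1, 0, 1) f = f := by
  ext i
  simp [op_apply, dg]

theorem op_unb (p : P3) (hp : p ≠ 0) (n : ℕ) : ∃ i, n ≤ i ∧ ∃ f, op p f i ≠ 0 := by
  by_cases hb : p.2.1 = 0
  · by_cases ha : p.1 = 0
    · have hc : p.2.2 ≠ 0 := fun hc => hp (Prod.ext ha (Prod.ext hb hc))
      refine ⟨2 ^ n, Nat.lt_two_pow_self.le, Finsupp.single (2 ^ n) 1, ?_⟩
      simpa [op_apply, hb, dg_I p ⟨n, rfl⟩] using hc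
    · refine ⟨2 ^ (n + 1) + (n + 1), le_add_left (Nat.le_succ n), Finsupp.single (2 ^ (n + 1) + (n + 1)) 1, ?_⟩
      simpa [op_apply, hb, dg_nI p (Igap (n + 1) (by omega))] using ha
  · refine ⟨n, le_rfl, Finsupp.single (n + 1) 1, ?_⟩
    simpa [op_apply] using hb

theorem op_inj {p q : P3} (h : ∀ f, op p f = op q f) : p = q := by
  by_contra hc
  obtain ⟨i, -, f, hf⟩ := op_unb (p + (-1 : K) • q) (fun hh => hc (by
    rw [neg_smul, one_smul, ← sub_eq_add_neg] at hh; exact sub_eq_zero.1 hh)) 0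
  rw [op_add, op_smul, h] at hf
  simp at hf

theorem op_fin_range {p : P3} (h : (Set.range (op p)).Finite) : p = 0 := by
  by_contra hp
  have h1 : (⋃ g ∈ Set.range (op p), Function.support (g : M)).Finite :=
    h.biUnion fun g _ => g.hasFiniteSupport
  obtain ⟨n, hn⟩ := h1.bddAbove
  obtain ⟨i, hi, f, hf⟩ := op_unb p hp (n + 1)
  have := hn (Set.mem_biUnion (Set.mem_range_self f) (show i ∈ Function.support (op p f) from hf))
  omega

theorem ker_det {p : P3} (hb : p.2.1 ≠ 0) {f : M} (hf : op p f = 0) (h0 : f 0 = 0) : f = 0 := by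
  ext i
  induction i with
  | zero => exact h0
  | succ i ih =>
    have := congrArg (fun g : M => g i) hf
    simp only [op_apply, Finsupp.coe_zero, Pi.zero_apply] at this ih ⊢
    rw [ih, mul_zero, zero_add] at this
    exact (mul_eq_zero.1 this).resolve_left hb

theorem NI_iff (p : P3) : (∃ f, f ≠ 0 ∧ op p f = 0) ↔ p.1 * p.2.2 = 0 := by
  constructor
  · rintro ⟨f, hf, h⟩
    by_contra hc
    have hd : ∀ i, dg p i ≠ 0 := by
      intro i
      unfold dg
      split_ifs
      · exact right_ne_zero_of_mul hc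
      · exact left_ne_zero_of_mul hc
    obtain ⟨i, hi, hmax⟩ := f.support.exists_max_image id (Finsupp.support_nonempty_iff.2 hf)
    have h1 : f (i + 1) = 0 := by
      by_contra h2
      have := hmax (i + 1) (Finsupp.mem_support_iff.2 h2)
      simp at this
    have := congrArg (fun g : M => g i) h
    simp only [op_apply, h1, mul_zero, add_zero, Finsupp.coe_zero, Pi.zero_apply] at this
    exact Finsupp.mem_support_iff.1 hi ((mul_eq_zero.1 this).resolve_left (hd i))
  · intro h
    by_cases ha : p.1 = 0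
    · refine ⟨Finsupp.single 0 1, by simp, ?_⟩
      ext i
      rcases i with _ | i
      · simp [op_apply, dg_nI p I0, ha]
      · simp [op_apply]
    · have hc := (mul_eq_zero.1 h).resolve_left ha
      refine ⟨Finsupp.single 1 p.1 - Finsupp.single 0 p.2.1, fun hh => ha ?_, ?_⟩
      · simpa using congrArg (fun g : M => g 1) hh
      · ext i
        rcases i with _ | _ | i
        · simp [op_apply, dg_nI p I0, mul_comm]
        · simp [op_apply, dg_I p I1, hc]
        · simp [op_apply]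

theorem Q_iff (p : P3) : (∃ f f' : M, op p f = 0 ∧ op p f' = 0 ∧ f ≠ 0 ∧ ∀ c : K, f' ≠ c • f) ↔
    p.2.1 = 0 ∧ p.1 * p.2.2 = 0 := by
  constructor
  · rintro ⟨f, f', h, h', hf, hc⟩
    refine ⟨?_, (NI_iff p).1 ⟨f, hf, h⟩⟩
    by_contra hb
    have h0 : f 0 ≠ 0 := fun h0 => hf (ker_det hb h h0)
    apply hc (f' 0 / f 0)
    rw [← sub_eq_zero]
    apply ker_det hb
    · rw [map_sub, map_smul, h, h', smul_zero, sub_zero]
    · simp [div_mul_cancel₀ _ h0]
  · rintro ⟨hb, h⟩
    have key : ∀ j, dg p j = 0 → op p (Finsupp.single j 1) = 0 := by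
      intro j hj
      ext i
      by_cases hij : j = i
      · simp [op_apply, hb, ← hij, hj]
      · simp [op_apply, hb, Finsupp.single_apply, hij]
    rcases mul_eq_zero.1 h with h | h
    · refine ⟨Finsupp.single 0 1, Finsupp.single 3 1, key 0 (by rw [dg_nI p I0, h]),
        key 3 (by rw [dg_nI p I3, h]), by simp, fun c hh => ?_⟩
      simpa using congrArg (fun g : M => g 3) hh
    · refine ⟨Finsupp.single 1 1, Finsupp.single 2 1, key 1 (by rw [dg_I p I1, h]),
        key 2 (by rw [dg_I p I2, h]), by simp, fun c hh => ?_⟩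
      simpa using congrArg (fun g : M => g 2) hh

theorem brick (A : M →ₗ[K] M) (hR : ∀ f, A (op (0, 1, 0) f) = op (0, 1, 0) (A f))
    (hE : ∀ f, A (op (0, 0, 1) f) = op (0, 0, 1) (A f)) : ∃ c : K, ∀ f, A f = c • f := by
  have R0 : op (0, 1, 0) (Finsupp.single 0 1) = 0 := by
    ext i; simp [op_apply, dg]
  have R1 : ∀ n, op (0, 1, 0) (Finsupp.single (n + 1) 1) = Finsupp.single n 1 := by
    intro n
    ext i; simp [op_apply, dg, Finsupp.single_apply]
  have hT : ∀ i n, A (Finsupp.single n 1) i =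
      if i ≤ n then A (Finsupp.single (n - i) 1) 0 else 0 := by
    intro i
    induction i with
    | zero => intro n; simp
    | succ i ih =>
      intro n
      have h1 := congrArg (fun g : M => g i) (hR (Finsupp.single n 1))
      simp only [op_apply, dg, ite_self, zero_mul, zero_add, one_mul] at h1
      rw [← h1]
      rcases n with _ | n
      · rw [R0]; simp
      · rw [R1, ih]; simp
  have hk : ∀ k, 1 ≤ k → A (Finsupp.single k 1) 0 = 0 := by
    intro k hk
    have h1 := congrArg (fun g : M => g (2 ^ k)) (hE (Finsupp.single (2 ^ k + k) 1))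
    have h2 : op (0, 0, 1) (Finsupp.single (2 ^ k + k) 1) = 0 := by
      ext i
      by_cases hi : 2 ^ k + k = i
      · simp [op_apply, ← hi, dg_nI _ (Igap k hk)]
      · simp [op_apply, Finsupp.single_apply, hi]
    rw [h2, map_zero] at h1
    simp only [op_apply, dg_I _ ⟨k, rfl⟩, one_mul, zero_mul, add_zero, Finsupp.coe_zero,
      Pi.zero_apply] at h1
    rw [hT, if_pos (by omega), Nat.add_sub_cancel_left] at h1
    exact h1.symm
  refine ⟨A (Finsupp.single 0 1) 0, fun f => ?_⟩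
  have : A = (A (Finsupp.single 0 1) 0) • LinearMap.id := by
    apply Finsupp.lhom_ext'
    intro n
    apply LinearMap.ext_ring
    ext i
    simp only [LinearMap.comp_apply, Finsupp.lsingle_apply, LinearMap.smul_apply,
      LinearMap.id_apply, Finsupp.smul_apply, smul_eq_mul]
    rw [hT]
    by_cases h : n = i
    · simp [h]
    · rw [Finsupp.single_apply, if_neg h, mul_zero]
      split_ifs with h1
      · exact hk _ (by omega)
      · rfl
  conv_lhs => rw [this]
  rfl

def lin (q1 q2 q3 p : P3) : P3 := p.1 • q1 + p.2.1 • q2 + p.2.2 • q3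

set_option synthInstance.maxSize 4096 in
theorem fin_check : ∀ q1 : P3, q1.2.1 = 0 ∧ q1.1 * q1.2.2 = 0 →
    ∀ q3 : P3, q3.2.1 = 0 ∧ q3.1 * q3.2.2 = 0 → ∀ q2 : P3,
    (∀ p : P3, p.1 * p.2.2 = 0 → (lin q1 q2 q3 p).1 * (lin q1 q2 q3 p).2.2 = 0) →
    (∀ p : P3, lin q1 q2 q3 (lin q1 q2 q3 (lin q1 q2 q3 p)) = p) →
    q1 = (1, 0, 0) ∧ q2 = (0, 1, 0) ∧ q3 = (0, 0, 1) := by
  decide +kernel

theorem rigid (A B : M →ₗ[K] M) (hA : ∀ f, A (A (A f)) = f) (hB : ∀ f, B (B (B f)) = f)
    (h : ∀ p, ∃ q, ∀ f, B (op p f) = op q (A f)) : (∀ f, A f = f) ∧ ∀ f, B f = f := by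
  obtain ⟨q1, h1⟩ := h (1, 0, 0)
  obtain ⟨q2, h2⟩ := h (0, 1, 0)
  obtain ⟨q3, h3⟩ := h (0, 0, 1)
  have hl : ∀ p f, B (op p f) = op (lin q1 q2 q3 p) (A f) := by
    intro p f
    have : p = p.1 • ((1, 0, 0) : P3) + p.2.1 • ((0, 1, 0) : P3) + p.2.2 • ((0, 0, 1) : P3) := by
      ext <;> simp
    conv_lhs => rw [this]
    simp only [lin, op_add, op_smul, map_add, map_smul, h1, h2, h3]
  have hAi : Function.Injective A := fun f g hh => by rw [← hA f, hh, hA]
  have hQ : ∀ p q : P3, (∀ f, B (op p f) = op q (A f)) → p.2.1 = 0 ∧ p.1 * p.2.2 = 0 →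
      q.2.1 = 0 ∧ q.1 * q.2.2 = 0 := by
    intro p q hq hp
    obtain ⟨f, f', e1, e2, e3, e4⟩ := (Q_iff p).2 hp
    refine (Q_iff q).1 ⟨A f, A f', by rw [← hq, e1, map_zero], by rw [← hq, e2, map_zero],
      fun hh => e3 (hAi (by rw [hh, map_zero])), fun c hh => e4 c (hAi (by rw [hh, map_smul]))⟩
  obtain ⟨rfl, rfl, rfl⟩ := fin_check q1 (hQ _ _ h1 (by simp)) q3 (hQ _ _ h3 (by simp)) q2
    (fun p hp => by
      obtain ⟨f, e1, e2⟩ := (NI_iff p).2 hp
      exact (NI_iff _).1 ⟨A f, fun hh => e1 (hAi (by rw [hh, map_zero])),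
        by rw [← hl, e2, map_zero]⟩)
    (fun p => op_inj fun f => by
      conv_lhs => rw [← hA f]
      rw [← hl, ← hl, ← hl, hB])
  have hBA : ∀ f, B f = A f := by
    intro f
    have := hl (1, 0, 1) f
    rwa [op_id, show lin (1, 0, 0) (0, 1, 0) (0, 0, 1) (1, 0, 1) = (1, 0, 1) by decide,
      op_id] at this
  obtain ⟨c, hc⟩ := brick A (fun f => by rw [← hBA, h2]) (fun f => by rw [← hBA, h3])
  have hc1 : c = 1 := by
    have := congrArg (fun g : M => g 0) (hA (Finsupp.single 0 1))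
    simp only [hc, Finsupp.smul_apply, Finsupp.single_eq_same, smul_eq_mul, mul_one] at this
    exact (by decide : ∀ c : K, c * (c * c) = 1 → c = 1) c this
  have hA1 : ∀ f, A f = f := fun f => by rw [hc, hc1, one_smul]
  exact ⟨hA1, fun f => by rw [hBA, hA1]⟩

end Pool.Agent.H.MP_a8364e_al
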