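import Pool.Agent.H.MP_a8364e_al.B

namespace Pool.Agent.H.MP_a8364e_al

abbrev V := M × M

theorem unit_sq : ∀ e : Kˣ, (e : K) * e = 1 := by decide
theorem unit_cube : ∀ e : Kˣ, (e : K) * (e * e) = 1 → e = 1 := by decide

noncomputable def el (e : Kˣ) (p : P3) : V ≃ₗ[K] V where
  toFun w := (w.1, (e : K) • w.2 + op p w.1)
  invFun w := (w.1, (e : K) • w.2 - (e : K) • op p w.1)
  map_add' a b := by
    ext : 1
    · rfl
    · simp only [Prod.fst_add, Prod.snd_add, map_add, smul_add]; abel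
  map_smul' c a := by
    ext : 1
    · rfl
    · simp only [Prod.smul_fst, Prod.smul_snd, map_smul, smul_add, RingHom.id_apply,
        smul_comm c (e : K)]
  left_inv w := by
    ext : 1
    · rfl
    · simp only [smul_add, smul_smul, unit_sq, one_smul, add_sub_cancel_right]
  right_inv w := by
    ext : 1
    · rfl
    · simp only [smul_sub, smul_smul, unit_sq, one_smul, sub_add_cancel]

theorem el_apply (e : Kˣ) (p : P3) (w : V) : el e p w = (w.1, (e : K) • w.2 + op p w.1) := rfl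

theorem el_mul (e e' : Kˣ) (p p' : P3) : el e p * el e' p' = el (e * e') ((e : K) • p' + p) := by
  ext w : 1
  simp only [LinearEquiv.mul_apply, el_apply, op_add, op_smul, smul_add, smul_smul,
    Units.val_mul, add_assoc]

theorem el_one : el 1 0 = 1 := by
  ext w : 1
  simp [el_apply, op_zero]

theorem el_cube (p : P3) : el 1 p ^ 3 = 1 := by
  rw [pow_succ, pow_two, el_mul, el_mul, ← el_one]
  congr 1
  simpa [add_assoc] using three p

theorem cube_el {e : Kˣ} {p : P3} (h : el e p ^ 3 = 1) : e = 1 := by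
  have := congrArg (fun γ : V ≃ₗ[K] V => (γ (0, Finsupp.single 0 1)).2 0) h
  simp only [pow_succ, pow_zero, one_mul, LinearEquiv.mul_apply, el_apply, map_zero, add_zero,
    Finsupp.smul_apply, Finsupp.single_eq_same, smul_eq_mul, mul_one, LinearEquiv.coe_one,
    id_eq] at this
  exact unit_cube e this

noncomputable def D : Subgroup (V ≃ₗ[K] V) where
  carrier := Set.range fun x : Kˣ × P3 => el x.1 x.2
  one_mem' := ⟨(1, 0), el_one⟩
  mul_mem' := by
    rintro _ _ ⟨x, rfl⟩ ⟨y, rfl⟩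
    exact ⟨(_, _), (el_mul _ _ _ _).symm⟩
  inv_mem' := by
    rintro _ ⟨x, rfl⟩
    refine ⟨(x.1⁻¹, -((x.1⁻¹ : Kˣ) : K) • x.2), ?_⟩
    simp only
    rw [eq_inv_iff_mul_eq_one, el_mul, ← el_one]
    rw [inv_mul_cancel, neg_smul, add_neg_cancel]

theorem el_mem (e : Kˣ) (p : P3) : el e p ∈ D := ⟨(e, p), rfl⟩

instance : Finite D := (Set.finite_range _).to_subtype

noncomputable def Γ : Subgroup (V ≃ₗ[K] V) := Subgroup.normalizer (D : Set (V ≃ₗ[K] V))

theorem D_le : D ≤ Γ := Subgroup.le_normalizer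

def NP (γ : V ≃ₗ[K] V) : Prop := ∀ p, ∃ q, γ * el 1 p * γ⁻¹ = el 1 q

theorem conj_cube {G : Type} [Group G] {a : G} (g : G) (h : a ^ 3 = 1) :
    (g * a * g⁻¹) ^ 3 = 1 := by rw [conj_pow, h]; group

theorem NP_of_mem {γ : V ≃ₗ[K] V} (h : γ ∈ Γ) : NP γ := by
  intro p
  obtain ⟨x, hx⟩ := (Subgroup.mem_normalizer_iff.1 h _).1 (el_mem 1 p)
  simp only at hx
  have := cube_el (hx ▸ conj_cube γ (el_cube p) : el x.1 x.2 ^ 3 = 1)
  exact ⟨x.2, by rw [← hx, this]⟩

theorem presY {γ : V ≃ₗ[K] V} (h : NP γ⁻¹) (y : M) : (γ (0, y)).1 = 0 := by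
  obtain ⟨q, hq⟩ := h (1, 0, 1)
  have h1 : el 1 (1, 0, 1) * γ = γ * el 1 q := by rw [← hq]; group
  have h2 := congrArg (fun δ : V ≃ₗ[K] V => (δ (0, y)).2) h1
  simpa [el_apply, op_id] using h2

theorem blocks {γ : V ≃ₗ[K] V} (h : ∀ y, (γ (0, y)).1 = 0) :
    ∃ A B L : M →ₗ[K] M, ∀ w, γ w = (A w.1, B w.2 + L w.1) := by
  refine ⟨LinearMap.fst K M M ∘ₗ γ.toLinearMap ∘ₗ LinearMap.inl K M M,
    LinearMap.snd K M M ∘ₗ γ.toLinearMap ∘ₗ LinearMap.inr K M M,
    LinearMap.snd K M M ∘ₗ γ.toLinearMap ∘ₗ LinearMap.inl K M M, fun w => ?_⟩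
  have : w = (0, w.2) + (w.1, 0) := by simp
  conv_lhs => rw [this, map_add]
  ext : 1
  · simp [h]
  · simp

theorem rel {γ : V ≃ₗ[K] V} {A B L : M →ₗ[K] M} (hγ : ∀ w, γ w = (A w.1, B w.2 + L w.1))
    {p q : P3} (h : γ * el 1 p * γ⁻¹ = el 1 q) (f : M) : B (op p f) = op q (A f) := by
  have h1 : γ * el 1 p = el 1 q * γ := by rw [← h]; group
  have h2 := congrArg (fun δ : V ≃ₗ[K] V => (δ (f, 0)).2) h1
  simpa [el_apply, hγ, add_comm] using h2

theorem cube_mem {γ : V ≃ₗ[K] V} (h : γ ∈ Γ) (h3 : γ ^ 3 = 1) : ∃ p, γ = el 1 p := by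
  obtain ⟨A, B, L, hγ⟩ := blocks (presY (NP_of_mem (inv_mem h)))
  have h4 : ∀ w, γ (γ (γ w)) = w := fun w => by
    simpa [pow_succ] using congrArg (fun δ : V ≃ₗ[K] V => δ w) h3
  obtain ⟨hA, hB⟩ := rigid A B
    (fun f => by simpa [hγ] using congrArg Prod.fst (h4 (f, 0)))
    (fun f => by simpa [hγ] using congrArg Prod.snd (h4 (0, f)))
    (fun p => (NP_of_mem h p).imp fun q hq => rel hγ hq)
  obtain ⟨x, hx⟩ := (Subgroup.mem_normalizer_iff.1 h _).1 (el_mem (-1) 0)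
  simp only at hx
  have h1 : γ * el (-1) 0 = el x.1 x.2 * γ := by rw [hx]; group
  have h2 := fun w => congrArg (fun δ : V ≃ₗ[K] V => (δ w).2) h1
  simp only [LinearEquiv.mul_apply, el_apply, hγ, hA, hB, op_zero, add_zero, Units.val_neg,
    Units.val_one, neg_smul, one_smul] at h2
  have h5 : (x.1 : K) = -1 := by
    have := congrArg (fun g : M => g 0) (h2 (0, Finsupp.single 0 1))
    simpa using this.symm
  refine ⟨(-1 : K) • x.2, ?_⟩
  ext w : 1
  have h6 := h2 (w.1, 0)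
  simp only [h5, neg_zero, zero_add, neg_smul, one_smul] at h6
  rw [hγ, el_apply, hA, hB, op_smul, Units.val_one, one_smul, neg_smul, one_smul]
  congr 2
  have h7 := three (L w.1)
  rw [eq_neg_iff_add_eq_zero, ← h7]
  nth_rewrite 2 [h6]
  abel

theorem neg_mem_Γ : LinearEquiv.neg K ∈ Γ := by
  apply Subgroup.centralizer_le_normalizer
  intro δ _
  ext w : 1
  simp

theorem H1 (γ : V ≃ₗ[K] V) (h : γ ∈ Γ) (h3 : γ ^ 3 = 1)
    (hf : (Set.range fun w => γ w - w).Finite) : γ = 1 := by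
  obtain ⟨p, rfl⟩ := cube_mem h h3
  have : p = 0 := by
    apply op_fin_range
    refine (hf.image Prod.snd).subset ?_
    rintro _ ⟨f, rfl⟩
    exact ⟨_, ⟨(f, 0), rfl⟩, by simp [el_apply]⟩
  rw [this, el_one]

theorem conj_D {N : V ≃ₗ[K] V} (h : ∀ γ ∈ Γ, N * γ * N⁻¹ ∈ Γ) (h' : NP N⁻¹)
    (δ : V ≃ₗ[K] V) (hδ : δ ∈ D) : N * δ * N⁻¹ ∈ D := by
  have hP : ∀ p, N * el 1 p * N⁻¹ ∈ D := by
    intro p
    obtain ⟨q, hq⟩ := cube_mem (h _ (D_le (el_mem 1 p))) (conj_cube N (el_cube p))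
    rw [hq]; exact el_mem _ _
  have hs : N * el (-1) 0 * N⁻¹ ∈ D := by
    obtain ⟨A, B, L, hN⟩ := blocks (presY h')
    have hσ : el (-1) 0 * (N * el (-1) 0 * N⁻¹) ∈ Γ :=
      mul_mem (D_le (el_mem _ _)) (h _ (D_le (el_mem _ _)))
    have e1 : ∀ w, (el (-1) 0 * (N * el (-1) 0 * N⁻¹)) (N w) =
        N w - (0, L w.1 + L w.1) := by
      intro w
      simp only [LinearEquiv.mul_apply, LinearEquiv.coe_inv, LinearEquiv.symm_apply_apply]
      simp only [el_apply, hN, op_zero, add_zero, Units.val_neg, Units.val_one, neg_smul,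
        one_smul, map_neg]
      ext : 1
      · simp
      · simp only [Prod.snd_sub]; abel
    have e2 : ∀ y, (el (-1) 0 * (N * el (-1) 0 * N⁻¹)) (0, y) = (0, y) := by
      intro y
      have h0 : (N⁻¹ (0, y)).1 = 0 := presY (fun p => by
        rw [inv_inv]
        exact (cube_mem (h _ (D_le (el_mem 1 p))) (conj_cube N (el_cube p))).imp fun _ hq => hq) y
      have := e1 (N⁻¹ (0, y))
      rw [h0] at this
      simpa using this
    obtain ⟨q, hq⟩ := cube_mem hσ (by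
      ext w : 1
      obtain ⟨w, rfl⟩ := N.surjective w
      generalize el (-1) 0 * (N * el (-1) 0 * N⁻¹) = σ at e1 e2
      simp only [pow_succ, pow_zero, one_mul, LinearEquiv.mul_apply, e1, map_sub, e2,
        LinearEquiv.coe_one, id_eq]
      have := three ((0, L w.1 + L w.1) : V)
      rw [sub_sub, sub_sub, ← add_assoc, this, sub_zero])
    have : N * el (-1) 0 * N⁻¹ = (el (-1) 0)⁻¹ * el 1 q := by rw [← hq]; group
    rw [this]
    exact mul_mem (inv_mem (el_mem _ _)) (el_mem _ _)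
  obtain ⟨⟨e, p⟩, rfl⟩ := hδ
  rcases (by decide : ∀ e : Kˣ, e = 1 ∨ e = -1) e with rfl | rfl
  · exact hP p
  · have : el (-1) p = el 1 p * el (-1) 0 := by rw [el_mul]; simp
    simp only
    rw [this, show N * (el 1 p * el (-1) 0) * N⁻¹ =
      (N * el 1 p * N⁻¹) * (N * el (-1) 0 * N⁻¹) by group]
    exact mul_mem (hP p) hs

theorem H2 (N : V ≃ₗ[K] V) (h : ∀ γ ∈ Γ, N * γ * N⁻¹ ∈ Γ) (h' : ∀ γ ∈ Γ, N⁻¹ * γ * N ∈ Γ) :
    N ∈ Γ := by
  have a1 : NP N := fun p =>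
    cube_mem (h _ (D_le (el_mem 1 p))) (conj_cube N (el_cube p))
  have a2 : NP N⁻¹ := fun p =>
    cube_mem (by simpa using h' _ (D_le (el_mem 1 p))) (conj_cube N⁻¹ (el_cube p))
  refine Subgroup.mem_normalizer_iff.2 fun δ => ⟨conj_D h a2 δ, fun hδ => ?_⟩
  have := conj_D (N := N⁻¹) (by simpa using h') (by simpa using a1) _ hδ
  simpa [mul_assoc] using this

instance : Finite Γ := by
  refine (D.normalizerMonoidHom.finite_iff_finite_ker_range).2 ⟨?_, inferInstance⟩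
  have hfin : {γ : V ≃ₗ[K] V | ∃ c : K, ∀ w, γ w = c • w}.Finite := by
    refine Set.Finite.of_finite_image (f := fun γ => (γ (Finsupp.single 0 1, 0)).1 0)
      (Set.toFinite _) ?_
    rintro a ⟨c, hc⟩ b ⟨d, hd⟩ h
    simp only [hc, hd, Prod.smul_fst, Finsupp.smul_apply, Finsupp.single_eq_same, smul_eq_mul,
      mul_one] at h
    ext w : 1
    rw [hc, hd, h]
  have := hfin.to_subtype
  rw [Subgroup.normalizerMonoidHom_ker]
  refine Finite.of_injective (β := {γ : V ≃ₗ[K] V | ∃ c : K, ∀ w, γ w = c • w})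
    (fun γ => ⟨γ.1.1, ?_⟩) fun a b h => Subtype.ext (Subtype.ext (by simpa using h))
  have hc : ∀ δ ∈ D, δ * γ.1.1 = γ.1.1 * δ := γ.2
  obtain ⟨A, B, L, hγ⟩ := blocks (presY (NP_of_mem (inv_mem γ.1.2)))
  have hr : ∀ p f, B (op p f) = op p (A f) := fun p =>
    rel hγ (by rw [← hc _ (el_mem 1 p)]; group)
  have hBA : ∀ f, B f = A f := fun f => by simpa only [op_id] using hr (1, 0, 1) f
  obtain ⟨c, hcA⟩ := brick A (fun f => by rw [← hBA, hr]) (fun f => by rw [← hBA, hr])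
  refine ⟨c, fun w => ?_⟩
  have h2 := congrArg (fun δ : V ≃ₗ[K] V => (δ (w.1, 0)).2) (hc _ (el_mem (-1) 0))
  simp only [LinearEquiv.mul_apply, el_apply, hγ, op_zero, add_zero, Units.val_neg,
    Units.val_one, neg_smul, one_smul, map_zero, zero_add, neg_zero] at h2
  have h3 : L w.1 = 0 := eq_zero_of_two (by nth_rewrite 1 [← h2]; simp)
  rw [hγ, h3, hBA, hcA, hcA, add_zero]
  rfl

end Pool.Agent.H.MP_a8364e_al
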